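import Pool.Agent.helper63.CompStruct.Rank
import Pool.Agent.helper63.CompStruct.Sanity

/-!
# A computable structure of noncomputable rank that is not computably approximable

There are a computable language `L`, a computable `L`-structure `A` of computable rank
`R^c(A) = ω₁^CK`, and a computable `Π₂` sentence `φ` true in `A` such that every computable model
of `φ` is computably isomorphic to `A`.  In particular `A` is not computably approximable.
-/

namespace Pool.Agent.Results.MP_1cf0df_lc.NotApproximable

open Pool.Agent.helper63.CompStruct

/-- Check of the definition of `omega1CK`: it is not a computable ordinal, and every computable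
ordinal is smaller. -/
theorem omega1CK_spec : ¬ IsComputableOrdinal omega1CK ∧
    ∀ α : Ordinal.{0}, IsComputableOrdinal α → α < omega1CK :=
  ⟨omega1CK_not_computable, fun _ h => lt_omega1CK h⟩

theorem result : ∃ (L : CLang) (A : Str L),
    A.IsComputable ∧ computableRank A = omega1CK ∧
    (∃ φ : Fml L 0, IsComputableInf φ ∧ IsLevel false 2 φ ∧ Models A φ ∧
      ∀ B : Str L, B.IsComputable → Models B φ →
        ∃ F : ℕ → ℕ, Computable F ∧ IsIso A B F) ∧
    ¬ ComputablyApproximable A := by
  refine ⟨theL, theA, theA_computable, rank_theA,
    ⟨thePhi, thePhi_computable, thePhi_level, theA_models, fun B hB hφ => unique_model hB hφ⟩, ?_⟩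
  intro h
  obtain ⟨B, hB, hφ, hn⟩ := h thePhi thePhi_computable theA_models
  obtain ⟨F, _, hF⟩ := unique_model hB hφ
  exact hn ⟨F, hF⟩

end Pool.Agent.Results.MP_1cf0df_lc.NotApproximable
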